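import Pool.Agent.H8.TX.Targets
import Pool.Agent.H8.TD.Basic

/-!
# The degree of the threefold
-/

set_option autoImplicit false

open MvPolynomial
open Pool.Agent.H12.ZD (pmap)
open Pool.Agent.H18.HIT Pool.Agent.H18.HX Pool.Agent.H18.VZ
open Pool.Agent.H8.ZA (HFam Const NA)
open Pool.Agent.H8.TD (lc dg Wsp Cop dh)
open Pool.Agent.H8.TX

namespace Pool.Agent.H7.TX

theorem lc_eq {k M : Type} [CommRing k] [AddCommGroup M] [Module k M] {a : ℕ}
    (s : Fin a → k) (φ : Fin a → M) : lc s φ = Fintype.linearCombination k φ s := rfl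

/-- four independent vectors and a coordinate vector -/
theorem basis5 {k : Type} [Field k] (u : Fin 4 → Fin 5 → k) (hu : LinearIndependent k u) :
    ∃ (i0 : Fin 5) (a : Fin 5 → k) (b : Fin 5 → Fin 4 → k), ∀ j,
      (Pi.single j 1 : Fin 5 → k) = (∑ i, b j i • u i) + a j • Pi.single i0 1 := by
  classical
  set W := Submodule.span k (Set.range u) with hW
  have hW4 : Module.finrank k W = 4 := by
    rw [hW, finrank_span_eq_card hu, Fintype.card_fin]
  have h5 : Module.finrank k (Fin 5 → k) = 5 := by
    rw [Module.finrank_fintype_fun_eq_card, Fintype.card_fin]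
  obtain ⟨i0, hi0⟩ : ∃ i0 : Fin 5, (Pi.single i0 1 : Fin 5 → k) ∉ W := by
    by_contra hcon
    push Not at hcon
    have htop : W = ⊤ := by
      rw [eq_top_iff, ← (Pi.basisFun k (Fin 5)).span_eq, Submodule.span_le]
      rintro _ ⟨i, rfl⟩
      rw [Pi.basisFun_apply]
      exact hcon i
    rw [htop, finrank_top, h5] at hW4
    omega
  have hsup : W ⊔ Submodule.span k {(Pi.single i0 1 : Fin 5 → k)} = ⊤ := by
    apply Submodule.eq_top_of_finrank_eq
    have hlt : W < W ⊔ Submodule.span k {(Pi.single i0 1 : Fin 5 → k)} := by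
      refine lt_of_le_of_ne le_sup_left fun h => hi0 ?_
      rw [h]
      exact Submodule.mem_sup_right (Submodule.mem_span_singleton_self _)
    have h6 := Submodule.finrank_lt_finrank_of_lt hlt
    have h7 := Submodule.finrank_le (W ⊔ Submodule.span k {(Pi.single i0 1 : Fin 5 → k)})
    omega
  have hex : ∀ j : Fin 5, ∃ (c : k) (d : Fin 4 → k),
      (Pi.single j 1 : Fin 5 → k) = (∑ i, d i • u i) + c • Pi.single i0 1 := by
    intro j
    have hj : (Pi.single j 1 : Fin 5 → k) ∈
        W ⊔ Submodule.span k {(Pi.single i0 1 : Fin 5 → k)} := by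
      rw [hsup]
      exact Submodule.mem_top
    obtain ⟨w, hw, z, hz, hwz⟩ := Submodule.mem_sup.1 hj
    obtain ⟨c, rfl⟩ := Submodule.mem_span_singleton.1 hz
    obtain ⟨d, hd⟩ := (Submodule.mem_span_range_iff_exists_fun k).1 hw
    exact ⟨c, d, by rw [hd, hwz]⟩
  choose a b hab using hex
  exact ⟨i0, a, b, hab⟩

theorem pf_BZX : T_BZX := by
  classical
  intro k K _ _ _ _ P r ξ hP hG s s' s''
  unfold dg
  obtain ⟨v, hv⟩ : ∃ v : Fin 3 → Fin 5 → k, v = ![s, s', s''] := ⟨_, rfl⟩
  obtain ⟨l, hl⟩ : ∃ l : Fin 3 → K, ∀ i, l i = lc (v i) ξ := ⟨_, fun _ => rfl⟩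
  have hrange : ({lc s ξ, lc s' ξ, lc s'' ξ} : Set K) = Set.range l := by
    ext z
    simp only [Set.mem_insert_iff, Set.mem_singleton_iff, Set.mem_range]
    constructor
    · rintro (h | h | h)
      · exact ⟨0, by rw [hl, hv, h]; rfl⟩
      · exact ⟨1, by rw [hl, hv, h]; rfl⟩
      · exact ⟨2, by rw [hl, hv, h]; rfl⟩
    · rintro ⟨i, rfl⟩
      fin_cases i
      · left; rw [hl, hv]; rfl
      · right; left; rw [hl, hv]; rfl
      · right; right; rw [hl, hv]; rfl
  rw [hrange]
  obtain ⟨F, hF⟩ : ∃ F, F = IntermediateField.adjoin k (Set.range l) := ⟨_, rfl⟩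
  rw [← hF]
  by_cases hne : Module.finrank F K = 0
  · rw [hne]
    exact Nat.zero_le _
  have hfin : Module.Finite F K := Module.finite_of_finrank_pos (Nat.pos_of_ne_zero hne)
  have hind : AlgebraicIndependent k l := by
    have halg : Algebra.IsAlgebraic (IntermediateField.adjoin k (Set.range l)) K := by
      rw [← hF]
      infer_instance
    have halg2 : Algebra.IsAlgebraic (Algebra.adjoin k (Set.range l)) K := by
      open scoped IntermediateField.algebraAdjoinAdjoin in
      exact (IsFractionRing.comap_isAlgebraic_iff (A := Algebra.adjoin k (Set.range l))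
        (K := IntermediateField.adjoin k (Set.range l)) (C := K)).2 halg
    have h : Cardinal.mk (Fin 3) ≤ Algebra.trdeg k K := by
      rw [hG.trd, Cardinal.mk_fin]
      norm_num
    exact (Algebra.IsAlgebraic.isTranscendenceBasis_of_le_trdeg_of_finite k l h).1
  -- linear algebra
  obtain ⟨u, hu⟩ : ∃ u : Fin 4 → Fin 5 → k, u = Fin.cons (Pi.single 1 1) v := ⟨_, rfl⟩
  have hu0 : u 0 = Pi.single 1 1 := by rw [hu]; rfl
  have hus : ∀ i : Fin 3, u i.succ = v i := fun i => by rw [hu]; rfl
  have hlin : LinearIndependent k u := by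
    rw [Fintype.linearIndependent_iff]
    intro c hc
    have h1 := congrArg (Fintype.linearCombination k ξ) hc
    rw [map_sum, map_zero, Fin.sum_univ_succ] at h1
    have h2 : Fintype.linearCombination k ξ (c 0 • u 0) = algebraMap k K (c 0) := by
      rw [map_smul, hu0, Fintype.linearCombination_apply_single, one_smul, hG.one,
        Algebra.smul_def, mul_one]
    have h3 : ∀ i : Fin 3, Fintype.linearCombination k ξ (c i.succ • u i.succ) =
        algebraMap k K (c i.succ) * l i := by
      intro i
      rw [map_smul, hus, ← lc_eq, ← hl, Algebra.smul_def]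
    rw [h2, Finset.sum_congr rfl fun i _ => h3 i] at h1
    have h4 : (C (c 0) + ∑ i : Fin 3, C (c i.succ) * X i : Po 3 k) = 0 := by
      apply hind
      rw [map_zero, map_add, map_sum]
      simp only [map_mul, aeval_X, algHom_C]
      exact h1
    have h5 : c 0 = 0 := by
      have := congrArg (eval (0 : Fin 3 → k)) h4
      simpa using this
    have h6 : ∀ i : Fin 3, c i.succ = 0 := by
      intro i
      have := congrArg (eval (Pi.single i 1 : Fin 3 → k)) h4
      rw [map_add, map_sum, map_zero, eval_C, h5, zero_add] at this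
      simp only [map_mul, eval_C, eval_X] at this
      rw [Finset.sum_eq_single i] at this
      · simpa using this
      · intro j _ hj
        rw [Pi.single_eq_of_ne hj, mul_zero]
      · intro h
        exact absurd (Finset.mem_univ i) h
    intro i
    refine Fin.cases h5 h6 i
  obtain ⟨i0, a, b, hab⟩ := basis5 u hlin
  have hcomb : ∀ (M : Type) [CommRing M] [Algebra k M] (x : Fin 5 → M) (j : Fin 5),
      x j = (∑ i, b j i • lc (u i) x) + a j • x i0 := by
    intro M _ _ x j
    have h1 := congrArg (Fintype.linearCombination k x) (hab j)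
    rw [map_add, map_sum, map_smul, Fintype.linearCombination_apply_single,
      Fintype.linearCombination_apply_single, one_smul, one_smul] at h1
    rw [h1]
    congr 1
    exact Finset.sum_congr rfl fun i _ => by rw [map_smul, lc_eq]
  -- the polynomial over the ring of polynomials
  obtain ⟨f, hf⟩ : ∃ f : Fin 5 → Polynomial (Po 3 k), ∀ j, f j =
      Polynomial.C (C (a j)) * Polynomial.X + Polynomial.C (C (b j 0) +
        ∑ i : Fin 3, C (b j i.succ) * X i) := ⟨_, fun _ => rfl⟩
  obtain ⟨G, hGd⟩ : ∃ G : Polynomial (Po 3 k), G = aeval f P := ⟨_, rfl⟩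
  have hG0 : G ≠ 0 := by
    intro h0
    have h1 : ∀ z : Fin 5 → k, z 1 = 1 → eval z P = 0 := by
      intro z hz
      obtain ⟨y, hy⟩ : ∃ y : Fin 3 → k, ∀ i, y i = lc (v i) z := ⟨_, fun _ => rfl⟩
      have h2 : (Polynomial.eval₂AlgHom (aeval y : Po 3 k →ₐ[k] k) (z i0)
          (fun _ => Commute.all _ _)).comp (aeval f) = aeval z := by
        apply algHom_ext
        intro j
        have hs := hcomb k z j
        rw [Fin.sum_univ_succ, hu0] at hs
        rw [AlgHom.comp_apply, aeval_X, aeval_X, hf, hs]
        simp only [map_add, map_mul, map_sum, Polynomial.eval₂AlgHom_apply,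
          Polynomial.eval₂_C, Polynomial.eval₂_X, AlgHom.coe_toRingHom, aeval_X, algHom_C,
          RingHom.coe_coe, Algebra.algebraMap_self, RingHom.id_apply]
        rw [lc_eq, Fintype.linearCombination_apply_single, one_smul, hz, smul_eq_mul, mul_one,
          smul_eq_mul, add_comm]
        congr 2
        exact Finset.sum_congr rfl fun i _ => by rw [hus, ← hy, smul_eq_mul]
      have h3 := DFunLike.congr_fun h2 P
      rw [AlgHom.comp_apply, ← hGd, h0, map_zero] at h3
      rw [← aeval_eq_eval, ← h3]
    have h4 : (X 1 * P : Po 5 k) = 0 := by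
      apply MvPolynomial.funext
      intro y
      rw [map_mul, eval_X, map_zero]
      by_cases hy : y 1 = 0
      · rw [hy, zero_mul]
      · have h5 := Pool.Agent.H8.TD.eval_smul hP.hom (y 1) (fun i => y i / y 1)
        have h6 : (fun i => y 1 * (y i / y 1)) = y := by
          funext i
          field_simp
        rw [h6, h1 (fun i => y i / y 1) (div_self hy), mul_zero] at h5
        rw [h5, mul_zero]
    rcases mul_eq_zero.1 h4 with h | h
    · exact X_ne_zero 1 h
    · exact hP.irr.ne_zero h
  -- the polynomial over the field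
  have hlF : ∀ i, l i ∈ F := fun i => by
    rw [hF]
    exact IntermediateField.subset_adjoin _ _ ⟨i, rfl⟩
  obtain ⟨lF, hlFd⟩ : ∃ lF : Fin 3 → F, ∀ i, (lF i : K) = l i := ⟨fun i => ⟨l i, hlF i⟩, fun _ => rfl⟩
  have hinj : Function.Injective (aeval lF : Po 3 k →ₐ[k] F) := by
    have h1 : F.val.comp (aeval lF : Po 3 k →ₐ[k] F) = aeval l := by
      apply algHom_ext
      intro i
      rw [AlgHom.comp_apply, aeval_X, aeval_X]
      exact hlFd i
    have h2 : Function.Injective (F.val.comp (aeval lF : Po 3 k →ₐ[k] F)) := by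
      rw [h1]
      exact hind
    exact Function.Injective.of_comp (f := F.val) h2
  obtain ⟨Q, hQ⟩ : ∃ Q : Polynomial F, Q = G.map (aeval lF : Po 3 k →ₐ[k] F).toRingHom := ⟨_, rfl⟩
  have hQ0 : Q ≠ 0 := by
    rw [hQ]
    exact (Polynomial.map_ne_zero_iff hinj).2 hG0
  have hGdeg : G.natDegree ≤ r := by
    have h1 : G = aeval f (map (algebraMap k (Po 3 k)) P) := by
      rw [aeval_map_algebraMap, hGd]
    rw [h1]
    have h2 := MvPolynomial.aeval_natDegree_le (m := r) (n := 1)
      (map (algebraMap k (Po 3 k)) P) (hP.hom.map _).totalDegree_le f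
      (fun i => by
        rw [hf]
        refine (Polynomial.natDegree_add_le _ _).trans (max_le ?_ ?_)
        · exact (Polynomial.natDegree_C_mul_le _ _).trans Polynomial.natDegree_X_le
        · rw [Polynomial.natDegree_C]
          exact Nat.zero_le _)
    simpa using h2
  have hQdeg : Q.natDegree ≤ r := by
    rw [hQ]
    exact Polynomial.natDegree_map_le.trans hGdeg
  have hroot : Polynomial.aeval (ξ i0) Q = 0 := by
    have h2 : (Polynomial.eval₂AlgHom (aeval l : Po 3 k →ₐ[k] K) (ξ i0)
        (fun _ => Commute.all _ _)).comp (aeval f) = aeval ξ := by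
      apply algHom_ext
      intro j
      have hs := hcomb K ξ j
      rw [Fin.sum_univ_succ, hu0] at hs
      rw [AlgHom.comp_apply, aeval_X, aeval_X, hf, hs]
      simp only [map_add, map_mul, map_sum, Polynomial.eval₂AlgHom_apply,
        Polynomial.eval₂_C, Polynomial.eval₂_X, AlgHom.coe_toRingHom, aeval_X, algHom_C,
        RingHom.coe_coe]
      rw [lc_eq, Fintype.linearCombination_apply_single, one_smul, hG.one, Algebra.smul_def,
        mul_one, Algebra.smul_def, add_comm]
      congr 2
      exact Finset.sum_congr rfl fun i _ => by rw [hus, ← hl, Algebra.smul_def]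
    have h3 := DFunLike.congr_fun h2 P
    rw [AlgHom.comp_apply, ← hGd, (hG.iff r P hP.hom).2 dvd_rfl] at h3
    rw [← h3, hQ, Polynomial.aeval_def, Polynomial.eval₂_map]
    change _ = Polynomial.eval₂ _ _ _
    congr 1
    apply MvPolynomial.ringHom_ext
    · intro c
      simp
    · intro i
      simp [hlFd]
  -- the field is generated by one element
  have htop : IntermediateField.adjoin F {ξ i0} = ⊤ := by
    have h1 : IntermediateField.restrictScalars k (IntermediateField.adjoin F {ξ i0}) = ⊤ := by
      rw [eq_top_iff, ← hG.top, IntermediateField.adjoin_le_iff]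
      rintro _ ⟨j, rfl⟩
      change ξ j ∈ IntermediateField.adjoin F {ξ i0}
      have hmem : ∀ z ∈ F, z ∈ IntermediateField.adjoin F {ξ i0} := fun z hz =>
        (IntermediateField.adjoin F {ξ i0}).algebraMap_mem ⟨z, hz⟩
      have hk : ∀ (c : k) (z : K), z ∈ IntermediateField.adjoin F {ξ i0} →
          c • z ∈ IntermediateField.adjoin F {ξ i0} := by
        intro c z hz
        rw [Algebra.smul_def]
        exact mul_mem (hmem _ (F.algebraMap_mem c)) hz
      rw [hcomb K ξ j]
      refine add_mem (sum_mem fun i _ => hk _ _ ?_) (hk _ _ ?_)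
      · refine Fin.cases ?_ (fun i => ?_) i
        · rw [hu0, lc_eq, Fintype.linearCombination_apply_single, one_smul, hG.one]
          exact one_mem _
        · rw [hus, ← hl]
          exact hmem _ (hlF i)
      · exact IntermediateField.mem_adjoin_simple_self _ _
    rw [eq_top_iff]
    intro z _
    have : z ∈ IntermediateField.restrictScalars k (IntermediateField.adjoin F {ξ i0}) := by
      rw [h1]
      exact IntermediateField.mem_top
    exact this
  have hint : IsIntegral F (ξ i0) := Algebra.IsIntegral.isIntegral _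
  have hdeg : Module.finrank F K = (minpoly F (ξ i0)).natDegree := by
    rw [← IntermediateField.adjoin.finrank hint, htop, IntermediateField.finrank_top']
  rw [hdeg]
  exact (Polynomial.natDegree_le_of_dvd (minpoly.dvd F _ hroot) hQ0).trans hQdeg

end Pool.Agent.H7.TX
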