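import Pool.Agent.H8.TX.Targets

/-!
# Irreducibility over the field of rational functions of two of the variables
-/

set_option autoImplicit false

open MvPolynomial
open Pool.Agent.H12.ZD (pmap)
open Pool.Agent.H18.HIT Pool.Agent.H18.HX Pool.Agent.H18.VZ
open Pool.Agent.H8.ZA (HFam Const NA)
open Pool.Agent.H8.TD (lc dg Wsp Cop dh)
open Pool.Agent.H8.TX

namespace Pool.Agent.H7.TX

section

variable {k κ : Type} [Field k] [Field κ] [Algebra k κ]

/-- the map of the coefficients -/
noncomputable def psi (μ : Fin 2 → κ) : Po 3 k →ₐ[k] Polynomial κ :=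
  aeval (![Polynomial.C (μ 0), Polynomial.C (μ 1), Polynomial.X] : Fin 3 → Polynomial κ)

/-- polynomials in two of the variables -/
noncomputable def emb : Po 2 k →ₐ[k] Po 3 k := rename Fin.castSucc

theorem psi_emb (μ : Fin 2 → κ) (p : Po 2 k) :
    psi (k := k) μ (emb p) = Polynomial.C (aeval μ p) := by
  have h : (psi (k := k) μ).comp emb =
      ((Algebra.ofId κ (Polynomial κ)).restrictScalars k).comp (aeval μ) := by
    apply algHom_ext
    intro i
    rw [AlgHom.comp_apply, AlgHom.comp_apply, emb, rename_X, psi, aeval_X, aeval_X]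
    fin_cases i <;> rfl
  exact DFunLike.congr_fun h p

theorem psi_inj (μ : Fin 2 → κ) (hμ : AlgebraicIndependent k μ) :
    Function.Injective (psi (k := k) μ) := by
  have h : psi (k := k) μ = ((Polynomial.mapAlgHom (aeval μ : Po 2 k →ₐ[k] κ)).comp
      (finSuccEquiv k 2).toAlgHom).comp (renameEquiv k (finRotate 3)).toAlgHom := by
    apply algHom_ext
    intro i
    simp only [AlgHom.comp_apply, psi, aeval_X]
    change _ = Polynomial.mapAlgHom (aeval μ : Po 2 k →ₐ[k] κ) (finSuccEquiv k 2
      (rename (finRotate 3) (X i)))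
    rw [rename_X]
    fin_cases i
    · change _ = Polynomial.mapAlgHom (aeval μ : Po 2 k →ₐ[k] κ) (finSuccEquiv k 2
        (X (Fin.succ 0)))
      rw [finSuccEquiv_X_succ, Polynomial.coe_mapAlgHom, Polynomial.map_C]
      simp
    · change _ = Polynomial.mapAlgHom (aeval μ : Po 2 k →ₐ[k] κ) (finSuccEquiv k 2
        (X (Fin.succ 1)))
      rw [finSuccEquiv_X_succ, Polynomial.coe_mapAlgHom, Polynomial.map_C]
      simp
    · change _ = Polynomial.mapAlgHom (aeval μ : Po 2 k →ₐ[k] κ) (finSuccEquiv k 2 (X 0))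
      rw [finSuccEquiv_X_zero, Polynomial.coe_mapAlgHom, Polynomial.map_X]
      rfl
  rw [h]
  exact ((Polynomial.map_injective _ hμ).comp (finSuccEquiv k 2).injective).comp
    (renameEquiv k (finRotate 3)).injective

/-- denominators -/
theorem clear1 (μ : Fin 2 → κ) (hμ : AlgebraicIndependent k μ)
    (htop : IntermediateField.adjoin k (Set.range μ) = ⊤) (z : κ) :
    ∃ s p : Po 2 k, s ≠ 0 ∧ aeval μ p = aeval μ s * z := by
  have hz : z ∈ IntermediateField.adjoin k (Set.range μ) := by
    rw [htop]
    exact IntermediateField.mem_top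
  obtain ⟨p, s, h⟩ := (IntermediateField.mem_adjoin_range_iff k μ z).1 hz
  by_cases hs : aeval μ s = 0
  · refine ⟨1, 0, one_ne_zero, ?_⟩
    rw [h, hs, div_zero, mul_zero, map_zero]
  · refine ⟨s, p, fun h0 => hs (by rw [h0, map_zero]), ?_⟩
    rw [h]
    field_simp

theorem clear2 (μ : Fin 2 → κ) (hμ : AlgebraicIndependent k μ)
    (htop : IntermediateField.adjoin k (Set.range μ) = ⊤) (q : Polynomial κ) :
    ∃ (s : Po 2 k) (p : Po 3 k), s ≠ 0 ∧ psi μ p = Polynomial.C (aeval μ s) * q := by
  induction q using Polynomial.induction_on' with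
  | add q q' h h' =>
    obtain ⟨s, p, hs, hp⟩ := h
    obtain ⟨s', p', hs', hp'⟩ := h'
    refine ⟨s * s', emb s' * p + emb s * p', mul_ne_zero hs hs', ?_⟩
    rw [map_add, map_mul, map_mul, psi_emb, psi_emb, hp, hp', map_mul, map_mul]
    ring
  | monomial n z =>
    obtain ⟨s, p, hs, hp⟩ := clear1 μ hμ htop z
    refine ⟨s, emb p * X 2 ^ n, hs, ?_⟩
    rw [map_mul, map_pow, psi_emb, hp]
    have hX : psi (k := k) μ (X 2) = Polynomial.X := by
      rw [psi, aeval_X]
      rfl
    rw [hX, ← Polynomial.C_mul_X_pow_eq_monomial, map_mul]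
    ring

theorem clear3 (μ : Fin 2 → κ) (hμ : AlgebraicIndependent k μ)
    (htop : IntermediateField.adjoin k (Set.range μ) = ⊤) (q : Polynomial (Polynomial κ)) :
    ∃ (s : Po 2 k) (p : Polynomial (Po 3 k)), s ≠ 0 ∧
      p.map (psi μ).toRingHom = Polynomial.C (Polynomial.C (aeval μ s)) * q := by
  induction q using Polynomial.induction_on' with
  | add q q' h h' =>
    obtain ⟨s, p, hs, hp⟩ := h
    obtain ⟨s', p', hs', hp'⟩ := h'
    refine ⟨s * s', Polynomial.C (emb s') * p + Polynomial.C (emb s) * p', mul_ne_zero hs hs', ?_⟩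
    have e : ∀ t : Po 2 k, (psi μ).toRingHom (emb t) = Polynomial.C (aeval μ t) := psi_emb μ
    rw [Polynomial.map_add, Polynomial.map_mul, Polynomial.map_mul, Polynomial.map_C,
      Polynomial.map_C, e, e, hp, hp', map_mul, map_mul, map_mul]
    ring
  | monomial n z =>
    obtain ⟨s, p, hs, hp⟩ := clear2 μ hμ htop z
    refine ⟨s, Polynomial.monomial n p, hs, ?_⟩
    rw [Polynomial.map_monomial, Polynomial.C_mul_monomial]
    congr 1

end

theorem pf_LDB : T_LDB := by
  intro k κ _ _ _ μ hμ htop Φ hΦ hdeg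
  change Irreducible (Φ.map (psi (k := k) μ).toRingHom)
  have hinj : Function.Injective (psi (k := k) μ).toRingHom := psi_inj μ hμ
  have hinj2 : Function.Injective
      (Polynomial.map (psi (k := k) μ).toRingHom) := Polynomial.map_injective _ hinj
  have hprime : Prime Φ := hΦ.prime
  have hsu : ∀ s : Po 2 k, s ≠ 0 → IsUnit (Polynomial.C (Polynomial.C (aeval μ s))) := by
    intro s hs
    refine (IsUnit.map Polynomial.C (IsUnit.map Polynomial.C (isUnit_iff_ne_zero.2 ?_)))
    intro h0
    exact hs (hμ (h0.trans (map_zero _).symm))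
  have hemb : ∀ s : Po 2 k, s ≠ 0 → ¬ Φ ∣ Polynomial.C (emb s) := by
    intro s hs hd
    have h1 : (emb s : Po 3 k) ≠ 0 := by
      intro h0
      exact hs (rename_injective _ (Fin.castSucc_injective 2) (h0.trans (map_zero _).symm))
    have h2 := Polynomial.natDegree_le_of_dvd hd (Polynomial.C_ne_zero.2 h1)
    rw [Polynomial.natDegree_C] at h2
    omega
  have e : ∀ t : Po 2 k, (psi μ).toRingHom (emb t) = Polynomial.C (aeval μ t) := psi_emb μ
  have hp : Prime (Φ.map (psi (k := k) μ).toRingHom) := by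
    refine ⟨?_, ?_, ?_⟩
    · intro h0
      exact hprime.ne_zero (hinj2 (h0.trans (Polynomial.map_zero _).symm))
    · apply Polynomial.not_isUnit_of_natDegree_pos
      rw [Polynomial.natDegree_map_eq_of_injective hinj]
      omega
    · intro a b hab
      obtain ⟨c, hc⟩ := hab
      obtain ⟨s, a', hs, ha⟩ := clear3 μ hμ htop a
      obtain ⟨s', b', hs', hb⟩ := clear3 μ hμ htop b
      obtain ⟨s'', c', hs'', hcc⟩ := clear3 μ hμ htop c
      have h1 : Polynomial.C (emb s'') * (a' * b') =
          Φ * (Polynomial.C (emb s) * (Polynomial.C (emb s') * c')) := by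
        apply hinj2
        simp only [Polynomial.map_mul, Polynomial.map_C]
        rw [e, e, e, ha, hb, hcc]
        linear_combination (Polynomial.C (Polynomial.C (aeval μ s'')) *
          Polynomial.C (Polynomial.C (aeval μ s)) * Polynomial.C (Polynomial.C (aeval μ s'))) * hc
      have h2 : Φ ∣ Polynomial.C (emb s'') * (a' * b') := ⟨_, h1⟩
      rcases hprime.dvd_or_dvd h2 with h | h
      · exact absurd h (hemb s'' hs'')
      · have h3 : ∀ (t : Po 2 k) (x : Polynomial (Po 3 k)) (y : Polynomial (Polynomial κ)), t ≠ 0 →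
            x.map (psi μ).toRingHom = Polynomial.C (Polynomial.C (aeval μ t)) * y → Φ ∣ x →
            Φ.map (psi (k := k) μ).toRingHom ∣ y := by
          intro t x y ht hx hd
          have h4 := Polynomial.map_dvd (psi (k := k) μ).toRingHom hd
          rw [hx] at h4
          exact (IsUnit.dvd_mul_left (hsu t ht)).1 h4
        rcases hprime.dvd_or_dvd h with h' | h'
        · exact Or.inl (h3 s a' a hs ha h')
        · exact Or.inr (h3 s' b' b hs' hb h')
  exact hp.irreducible

end Pool.Agent.H7.TX
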